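import Pool.Agent.Y36.FD.SuperP
import Pool.Agent.TH87.FDC.Grig
import Pool.Agent.Results.MP_220364_al.WHyperdimInfinite

set_option autoImplicit false

/-!
# The weak hyperbolic dimension of branch groups and of groups containing their own square

The definitions of the problem (large scale doubling, weak hyperbolic dimension, word metric,
Grigorchuk's group, Thompson's group `F`) are in `Pool/Agent/H812R5/Stmts.lean`; branch groups are
defined in `Pool/Agent/Y36/FD/Branch.lean`, binary systems of commuting subgroups in
`Pool/Agent/Y36/FD/Bin.lean`, and `HypObstructs` in `Pool/Agent/Y36/FD/SuperP.lean`.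
-/

namespace Pool.Agent.Results.MP_220364_al.BranchAndSquares

open H812R5 Pool.Agent.Y36.FD

theorem hyp_grig {a b c d : Equiv.Perm Seq} (hG : IsGrig a b c d) :
    HypObstructs (Subgroup.closure ({a, b, c, d} : Set (Equiv.Perm Seq))) := by
  have := Pool.Agent.TH87.FDC.KG_infinite hG
  exact (hyp_of_square inferInstance (Pool.Agent.TH87.FDC.sqK_inj hG)).mono
    (Subgroup.inclusion H812R5.G.closure_sub) (Subgroup.inclusion_injective _)

/-- **Theorem.**  The following groups do not embed in any finitely generated group whose weak
hyperbolic dimension is finite; in particular, if they are finitely generated, their own weak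
hyperbolic dimension is infinite.
(1) Groups with a binary system of commuting, infinite, finitely generated subgroups.
(2) Infinite finitely generated groups containing a copy of their own direct square.
(3) Finitely generated branch groups.
(4) Thompson's group `F`.
(5) Grigorchuk's group.
(6) In particular the weak hyperbolic dimensions of Grigorchuk's group and of Thompson's group `F`
are infinite, for every finite generating set. -/
theorem result :
    (∀ (Δ : Type) [Group Δ] (H : List Bool → Subgroup Δ), BinSys H → (∀ w, (H w).FG) →
      (∀ w, (H w : Set Δ).Infinite) → HypObstructs Δ) ∧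
    (∀ (Δ : Type) [Group Δ] [Infinite Δ], Group.FG Δ → ∀ σ : Δ × Δ →* Δ, Function.Injective σ →
      HypObstructs Δ) ∧
    (∀ (k : ℕ → ℕ) (G : Subgroup (Equiv.Perm (Bd k))), IsBranch G → Group.FG G →
      HypObstructs G) ∧
    HypObstructs TF ∧
    (∀ a b c d : Equiv.Perm Seq, IsGrig a b c d →
      HypObstructs (Subgroup.closure ({a, b, c, d} : Set (Equiv.Perm Seq)))) ∧
    ((∃ a b c d : Equiv.Perm Seq, IsGrig a b c d) ∧
      ∀ a b c d : Equiv.Perm Seq, IsGrig a b c d → ∀ S : Set (Equiv.Perm Seq), S.Finite →
        Subgroup.closure S = Subgroup.closure {a, b, c, d} → ∀ n, ¬ WHyperdimLE (wd S) n) ∧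
    (∀ S : Set TF, S.Finite → Subgroup.closure S = ⊤ → ∀ n, ¬ WHyperdimLE (wd S) n) :=
  ⟨fun _ _ _ hH hfg hinf => hyp_of_superPoly (superPoly_of_binSys hH hfg hinf),
    fun _ _ _ hfg _ hσ => hyp_of_square hfg hσ,
    fun _ _ hG hfg => hyp_of_branch hG hfg,
    hyp_of_superPoly F.taskF,
    fun _ _ _ _ hG => hyp_grig hG,
    WHyperdimInfinite.result.2⟩

end Pool.Agent.Results.MP_220364_al.BranchAndSquares
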